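import Mathlib

/-!
# The dual irregularity strength of projective planes is not linear in the order

We show that the dual (irregularity) strength `s*` of every projective plane of order `q` satisfies
`(q + 1) (q ^ 2 + q + 2) ≤ 3 (s* - 1) ^ 2`, so `s*` is at least about `q ^ (3/2) / √3`, and conclude
that there is no absolute constant `c` with `s* ≤ c q` for all finite projective planes.

The reason: since two points lie on exactly one common line, the (unnormalised) variance of the line
sums equals `q` times the variance of the labels, whereas `q ^ 2 + q + 1` distinct integers have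
variance of order `q ^ 4`.
-/

set_option autoImplicit false

open Configuration Finset
open scoped LinearAlgebra.Projectivization

namespace Pool.Agent.Results.MP_aa9284_co.NotLinear

open scoped Classical in
/-- The sum of the labels `w` of the points of the line `l`. -/
noncomputable def lineSum {P L : Type*} [Fintype P] [Membership P L] (w : P → ℕ) (l : L) : ℕ :=
  ∑ x with x ∈ l, w x

/-- A labelling `w` of the points of a projective plane (points `P`, lines `L`) is
*line-irregular* if all labels are positive integers and the line sums are pairwise distinct. -/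
def LineIrregular (P L : Type*) [Fintype P] [Membership P L] (w : P → ℕ) : Prop :=
  (∀ x, 1 ≤ w x) ∧ ∀ l₁ l₂ : L, l₁ ≠ l₂ → lineSum w l₁ ≠ lineSum w l₂

/-- The *dual (irregularity) strength* `s*` of a projective plane with points `P` and lines `L`:
the minimum, over all line-irregular labellings `w`, of the maximal label `max_x w x`. -/
noncomputable def dualStrength (P L : Type*) [Fintype P] [Membership P L] : ℕ :=
  sInf {s : ℕ | ∃ w : P → ℕ, LineIrregular P L w ∧ s = univ.sup w}

/-! ### Sums of squares of distinct integers -/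

lemma sum_sq_lower (U : Finset ℤ) :
    (∀ u ∈ U, 1 ≤ u) →
      ((#U : ℤ) * (#U + 1) * (2 * #U + 1)) ≤ 6 * ∑ u ∈ U, u ^ 2 := by
  induction U using Finset.induction_on_max with
  | empty => simp
  | insert a s ha ih =>
    intro h
    have hs : ∀ u ∈ s, 1 ≤ u := fun u hu => h u (mem_insert_of_mem hu)
    have hnot : a ∉ s := fun hmem => lt_irrefl _ (ha a hmem)
    have hcard : (#s : ℤ) + 1 ≤ a := by
      have hsub : s ⊆ Finset.Icc 1 (a - 1) := by
        intro x hx
        rw [Finset.mem_Icc]
        exact ⟨hs x hx, by have := ha x hx; omega⟩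
      have := Finset.card_le_card hsub
      rw [Int.card_Icc] at this
      have h1 := h a (mem_insert_self _ _)
      omega
    have ih' := ih hs
    rw [card_insert_of_notMem hnot, sum_insert hnot]
    push_cast
    have hn : (0 : ℤ) ≤ #s := by positivity
    nlinarith

lemma sum_sq_diff_lower (T : Finset ℤ) :
    ((#T : ℤ) ^ 2 * (#T ^ 2 - 1)) ≤ 6 * ∑ x ∈ T, ∑ y ∈ T, (x - y) ^ 2 := by
  induction T using Finset.induction_on_max with
  | empty => simp
  | insert a s ha ih =>
    have hnot : a ∉ s := fun hmem => lt_irrefl _ (ha a hmem)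
    have key : ((#s : ℤ) * (#s + 1) * (2 * #s + 1)) ≤ 6 * ∑ x ∈ s, (a - x) ^ 2 := by
      have hinj : Set.InjOn (fun x : ℤ => a - x) s := by
        intro x _ y _ hxy
        simpa using hxy
      have := sum_sq_lower (s.image (fun x => a - x)) (by
        intro u hu
        rw [mem_image] at hu
        obtain ⟨x, hx, rfl⟩ := hu
        have := ha x hx
        omega)
      rw [card_image_of_injOn hinj, sum_image hinj] at this
      exact this
    have hsym : ∑ x ∈ s, (x - a) ^ 2 = ∑ x ∈ s, (a - x) ^ 2 :=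
      sum_congr rfl fun x _ => by ring
    rw [card_insert_of_notMem hnot, sum_insert hnot]
    simp only [sum_insert hnot, sum_add_distrib]
    rw [hsym]
    push_cast
    have hn : (0 : ℤ) ≤ #s := by positivity
    nlinarith

/-! ### The variance identity -/

section plane

variable {P L : Type*} [Fintype P] [Fintype L] [Membership P L] [ProjectivePlane P L]

open scoped Classical in
lemma sum_lineSum (w : P → ℤ) :
    ∑ l : L, ∑ x with x ∈ l, w x = (ProjectivePlane.order P L + 1) * ∑ x, w x := by
  simp_rw [sum_filter]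
  rw [sum_comm]
  rw [mul_sum]
  refine sum_congr rfl fun x _ => ?_
  rw [← sum_filter, sum_const]
  have : #{l : L | x ∈ l} = ProjectivePlane.order P L + 1 := by
    rw [← ProjectivePlane.lineCount_eq (L := L) x, lineCount, Nat.card_eq_fintype_card,
      Fintype.card_subtype]
  rw [this]
  simp

open scoped Classical in
lemma sum_lineSum_sq (w : P → ℤ) :
    ∑ l : L, (∑ x with x ∈ l, w x) ^ 2 =
      ProjectivePlane.order P L * ∑ x, w x ^ 2 + (∑ x, w x) ^ 2 := by
  have h1 : ∀ l : L, (∑ x with x ∈ l, w x) ^ 2 =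
      ∑ x, ∑ y, (if x ∈ l ∧ y ∈ l then w x * w y else 0) := by
    intro l
    rw [sq, sum_mul_sum]
    simp_rw [sum_filter]
    refine sum_congr rfl fun x _ => ?_
    by_cases hx : x ∈ l
    · simp [hx]
    · simp [hx]
  simp_rw [h1]
  rw [sum_comm]
  have h2 : ∀ x : P, ∑ l : L, ∑ y, (if x ∈ l ∧ y ∈ l then w x * w y else 0) =
      ProjectivePlane.order P L * w x ^ 2 + w x * ∑ y, w y := by
    intro x
    rw [sum_comm]
    have h3 : ∀ y : P, ∑ l : L, (if x ∈ l ∧ y ∈ l then w x * w y else 0) =
        (if x = y then ProjectivePlane.order P L * w x ^ 2 else 0) + w x * w y := by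
      intro y
      rw [← sum_filter, sum_const]
      by_cases hxy : x = y
      · subst hxy
        have : #{l : L | x ∈ l ∧ x ∈ l} = ProjectivePlane.order P L + 1 := by
          rw [← ProjectivePlane.lineCount_eq (L := L) x, lineCount, Nat.card_eq_fintype_card,
            Fintype.card_subtype]
          simp
        rw [this]
        simp
        ring
      · have : #{l : L | x ∈ l ∧ y ∈ l} = 1 := by
          rw [card_eq_one]
          obtain ⟨l, hl, huniq⟩ := HasLines.existsUnique_line P L x y hxy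
          refine ⟨l, ?_⟩
          ext m
          simp only [mem_filter, mem_univ, true_and, mem_singleton]
          exact ⟨fun h => huniq m h, fun h => h ▸ hl⟩
        rw [this]
        simp [hxy]
    simp_rw [h3]
    rw [sum_add_distrib, ← mul_sum]
    simp
  simp_rw [h2]
  rw [sum_add_distrib, ← mul_sum, ← sum_mul, sq (∑ x, w x)]

/-- Every line-irregular labelling of a projective plane of order `q` whose labels are at most `s`
satisfies `(q + 1) (q ^ 2 + q + 2) ≤ 3 (s - 1) ^ 2`. -/
lemma labelling_bound (w : P → ℕ) (hw : LineIrregular P L w) (s : ℕ) (hs : ∀ x, w x ≤ s) :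
    ((ProjectivePlane.order P L : ℤ) + 1) *
      ((ProjectivePlane.order P L : ℤ) ^ 2 + ProjectivePlane.order P L + 2) ≤
        3 * ((s : ℤ) - 1) ^ 2 := by
  classical
  set q : ℕ := ProjectivePlane.order P L with hq
  have hcardP : (Fintype.card P : ℤ) = (q : ℤ) ^ 2 + q + 1 := by
    rw [ProjectivePlane.card_points P L]; push_cast; rfl
  have hcardL : (Fintype.card L : ℤ) = (q : ℤ) ^ 2 + q + 1 := by
    rw [ProjectivePlane.card_lines P L]; push_cast; rfl
  have hq1 : 1 < q := ProjectivePlane.one_lt_order P L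
  let W : P → ℤ := fun x => (w x : ℤ)
  let S : L → ℤ := fun l => ∑ x with x ∈ l, W x
  have hSinj : Function.Injective S := by
    intro l₁ l₂ h
    by_contra hne
    apply hw.2 l₁ l₂ hne
    have : ((lineSum w l₁ : ℕ) : ℤ) = (lineSum w l₂ : ℕ) := by
      simpa [lineSum, S, W] using h
    exact_mod_cast this
  have hS1 : ∑ l : L, S l = ((q : ℤ) + 1) * ∑ x, W x := by
    simpa [S, hq] using sum_lineSum (L := L) W
  have hS2 : ∑ l : L, S l ^ 2 = (q : ℤ) * ∑ x, W x ^ 2 + (∑ x, W x) ^ 2 := by
    simpa [S, hq] using sum_lineSum_sq (L := L) W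
  -- lower bound coming from distinctness
  have hlow : ((q : ℤ) ^ 2 + q + 1) ^ 2 * (((q : ℤ) ^ 2 + q + 1) ^ 2 - 1) ≤
      6 * ∑ l : L, ∑ m : L, (S l - S m) ^ 2 := by
    have := sum_sq_diff_lower (univ.image S)
    rw [card_image_of_injective _ hSinj, sum_image (hSinj.injOn)] at this
    simp only [sum_image (hSinj.injOn)] at this
    rw [card_univ, hcardL] at this
    exact this
  have hexp : ∑ l : L, ∑ m : L, (S l - S m) ^ 2 =
      2 * ((q : ℤ) ^ 2 + q + 1) * ∑ l : L, S l ^ 2 - 2 * (∑ l : L, S l) ^ 2 := by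
    have : ∀ l m : L, (S l - S m) ^ 2 = S l ^ 2 - 2 * (S l * S m) + S m ^ 2 := by
      intro l m; ring
    simp_rw [this, sum_add_distrib, sum_sub_distrib, ← mul_sum, ← sum_mul]
    simp only [sum_const, card_univ, nsmul_eq_mul]
    rw [← mul_sum, hcardL]
    ring
  rw [hexp, hS1, hS2] at hlow
  -- upper bound on the second moment of the labels
  have hup : ∑ x, W x ^ 2 ≤ ((s : ℤ) + 1) * ∑ x, W x - s * ((q : ℤ) ^ 2 + q + 1) := by
    have h1 : ∀ x, W x ^ 2 ≤ ((s : ℤ) + 1) * W x - s := by
      intro x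
      have ha : (1 : ℤ) ≤ W x := Int.ofNat_le.mpr (hw.1 x)
      have hb : W x ≤ s := Int.ofNat_le.mpr (hs x)
      nlinarith
    calc ∑ x, W x ^ 2 ≤ ∑ x, (((s : ℤ) + 1) * W x - s) := sum_le_sum fun x _ => h1 x
      _ = ((s : ℤ) + 1) * ∑ x, W x - s * ((q : ℤ) ^ 2 + q + 1) := by
        rw [sum_sub_distrib, ← mul_sum]
        simp only [sum_const, card_univ, nsmul_eq_mul]
        rw [hcardP]
        ring
  set X : ℤ := ∑ x, W x with hX
  set Y : ℤ := ∑ x, W x ^ 2 with hY
  set Q : ℤ := (q : ℤ) with hQ
  have hQ1 : 1 < Q := by rw [hQ]; exact_mod_cast hq1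
  set V : ℤ := Q ^ 2 + Q + 1 with hV
  have hVpos : 0 < V := by positivity
  -- V ^ 2 (V ^ 2 - 1) ≤ 12 Q (V Y - X ^ 2)
  have e1 : V ^ 2 * (V ^ 2 - 1) ≤ 12 * Q * (V * Y - X ^ 2) := by
    have : 6 * (2 * V * (Q * Y + X ^ 2) - 2 * ((Q + 1) * X) ^ 2) =
        12 * Q * (V * Y - X ^ 2) := by
      rw [hV]; ring
    linarith
  -- 4 (V Y - X ^ 2) ≤ V ^ 2 (s - 1) ^ 2
  have e2 : 4 * (V * Y - X ^ 2) ≤ V ^ 2 * ((s : ℤ) - 1) ^ 2 := by
    have h1 : V * Y ≤ V * (((s : ℤ) + 1) * X - s * V) :=
      mul_le_mul_of_nonneg_left hup hVpos.le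
    nlinarith [sq_nonneg (2 * X - V * ((s : ℤ) + 1))]
  have e3 : V ^ 2 * (V ^ 2 - 1) ≤ V ^ 2 * (3 * Q * ((s : ℤ) - 1) ^ 2) := by
    have : 12 * Q * (V * Y - X ^ 2) ≤ 3 * Q * (V ^ 2 * ((s : ℤ) - 1) ^ 2) := by
      nlinarith
    linarith [this]
  have e4 : V ^ 2 - 1 ≤ 3 * Q * ((s : ℤ) - 1) ^ 2 :=
    le_of_mul_le_mul_left e3 (by positivity)
  have e5 : Q * ((Q + 1) * (Q ^ 2 + Q + 2)) ≤ Q * (3 * ((s : ℤ) - 1) ^ 2) := by
    have : V ^ 2 - 1 = Q * ((Q + 1) * (Q ^ 2 + Q + 2)) := by rw [hV]; ring
    linarith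
  exact le_of_mul_le_mul_left e5 (by positivity)

open scoped Classical in
/-- Line-irregular labellings exist: label the `i`-th point by `2 ^ i`. -/
lemma exists_lineIrregular : ∃ w : P → ℕ, LineIrregular P L w := by
  let e := Fintype.equivFin P
  refine ⟨fun x => 2 ^ (e x : ℕ), fun x => Nat.one_le_two_pow, ?_⟩
  intro l₁ l₂ hne heq
  apply hne
  have hsum : ∀ l : L, lineSum (fun x : P => 2 ^ (e x : ℕ)) l =
      ∑ i ∈ (univ.filter (fun x : P => x ∈ l)).image (fun x => (e x : ℕ)), 2 ^ i := by
    intro l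
    rw [sum_image]
    · rfl
    · intro x _ y _ hxy
      exact e.injective (Fin.ext hxy)
  rw [hsum, hsum] at heq
  have himg := Finset.geomSum_injective (le_refl 2) heq
  have hinj : Function.Injective (fun x : P => (e x : ℕ)) := fun x y hxy =>
    e.injective (Fin.ext hxy)
  have hset := Finset.image_injective hinj himg
  -- two distinct points on `l₁`
  have h2 := ProjectivePlane.two_lt_pointCount P l₁
  rw [pointCount, Nat.card_eq_fintype_card, Fintype.two_lt_card_iff] at h2
  obtain ⟨a, b, -, hab, -, -⟩ := h2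
  have ha : (a : P) ∈ l₂ := by
    have : (a : P) ∈ univ.filter (fun x : P => x ∈ l₁) := by simp [a.2]
    rw [hset] at this
    simpa using this
  have hb : (b : P) ∈ l₂ := by
    have : (b : P) ∈ univ.filter (fun x : P => x ∈ l₁) := by simp [b.2]
    rw [hset] at this
    simpa using this
  rcases Nondegenerate.eq_or_eq a.2 b.2 ha hb with h | h
  · exact absurd (Subtype.ext h) hab
  · exact h

/-- **Lower bound for every plane.** The dual strength `s*` of every finite projective plane of
order `q` satisfies `(q + 1) (q ^ 2 + q + 2) ≤ 3 (s* - 1) ^ 2`. -/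
theorem dualStrength_lower_bound :
    ((ProjectivePlane.order P L : ℤ) + 1) *
      ((ProjectivePlane.order P L : ℤ) ^ 2 + ProjectivePlane.order P L + 2) ≤
        3 * ((dualStrength P L : ℤ) - 1) ^ 2 := by
  have hne : {s : ℕ | ∃ w : P → ℕ, LineIrregular P L w ∧ s = univ.sup w}.Nonempty := by
    obtain ⟨w, hw⟩ := exists_lineIrregular (P := P) (L := L)
    exact ⟨_, w, hw, rfl⟩
  obtain ⟨w, hw, hs⟩ := Nat.sInf_mem hne
  have hs' : dualStrength P L = univ.sup w := hs
  rw [hs']
  exact labelling_bound w hw _ fun x => Finset.le_sup (mem_univ x)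

end plane

/-- For every real constant `c` there is a finite projective plane (with point set `P` and line set `L`)
whose dual irregularity strength exceeds `c` times its order. -/
theorem exists_plane (c : ℝ) :
    ∃ (P L : Type) (_ : Fintype P) (_ : Fintype L) (_ : Membership P L)
      (_ : ProjectivePlane P L),
        c * (ProjectivePlane.order P L : ℝ) < (dualStrength P L : ℝ) := by
  classical
  obtain ⟨p, hp, hprime⟩ := Nat.exists_infinite_primes (Nat.ceil (3 * c ^ 2) + 2)
  have : Fact p.Prime := ⟨hprime⟩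
  let _ : Fintype (ℙ (ZMod p) (Fin 3 → ZMod p)) := Fintype.ofFinite _
  refine ⟨ℙ (ZMod p) (Fin 3 → ZMod p), ℙ (ZMod p) (Fin 3 → ZMod p), inferInstance, inferInstance,
    inferInstance, inferInstance, ?_⟩
  set q := ProjectivePlane.order (ℙ (ZMod p) (Fin 3 → ZMod p)) (ℙ (ZMod p) (Fin 3 → ZMod p))
    with hq
  have horder : q = p := by
    have h1 := ProjectivePlane.card_points (ℙ (ZMod p) (Fin 3 → ZMod p))
      (ℙ (ZMod p) (Fin 3 → ZMod p))
    have h2 := Projectivization.card_of_finrank (ZMod p) (Fin 3 → ZMod p) (n := 3) (by simp)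
    rw [Nat.card_eq_fintype_card, h1, Nat.card_eq_fintype_card, ZMod.card] at h2
    simp only [sum_range_succ, range_zero, sum_empty, pow_zero, pow_one, zero_add] at h2
    rw [← hq] at h2
    rcases lt_trichotomy q p with h | h | h
    · nlinarith
    · exact h
    · nlinarith
  have hbound := dualStrength_lower_bound (P := ℙ (ZMod p) (Fin 3 → ZMod p))
    (L := ℙ (ZMod p) (Fin 3 → ZMod p))
  rw [← hq] at hbound
  set s := dualStrength (ℙ (ZMod p) (Fin 3 → ZMod p)) (ℙ (ZMod p) (Fin 3 → ZMod p)) with hs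
  have hb : ((q : ℝ) + 1) * ((q : ℝ) ^ 2 + q + 2) ≤ 3 * ((s : ℝ) - 1) ^ 2 := by
    exact_mod_cast hbound
  have hc : 3 * c ^ 2 < (q : ℝ) := by
    have h1 : 3 * c ^ 2 ≤ (Nat.ceil (3 * c ^ 2) : ℝ) := Nat.le_ceil _
    have h2 : ((Nat.ceil (3 * c ^ 2) + 2 : ℕ) : ℝ) ≤ (p : ℝ) := by exact_mod_cast hp
    push_cast at h2
    rw [horder]
    linarith
  have hq0 : (0 : ℝ) < q := by
    have : 0 ≤ 3 * c ^ 2 := by positivity
    linarith
  by_contra hcon
  push Not at hcon
  have hs1 : (1 : ℝ) ≤ s := by
    by_contra h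
    have h0 : s = 0 := by
      have : (s : ℝ) < 1 := by push Not at h; exact h
      have : s < 1 := by exact_mod_cast this
      omega
    rw [h0] at hb
    have : (0:ℝ) < (q:ℝ) ^ 2 := by positivity
    have hp2 : (2 : ℝ) ≤ q := by
      rw [horder]; exact_mod_cast hprime.two_le
    nlinarith
  have h1 : ((s : ℝ) - 1) ^ 2 ≤ (c * q) ^ 2 := by
    apply pow_le_pow_left₀ (by linarith)
    linarith
  have h2 : (q : ℝ) ^ 3 < 3 * (c * q) ^ 2 := by nlinarith
  have h3 : 3 * (c * (q : ℝ)) ^ 2 < (q : ℝ) ^ 3 := by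
    have : 3 * c ^ 2 * (q : ℝ) ^ 2 < q * (q : ℝ) ^ 2 :=
      mul_lt_mul_of_pos_right hc (by positivity)
    nlinarith
  linarith

/-- **The dual irregularity strength of projective planes is not linear in the order.**
For every finite projective plane of order `q` the dual irregularity strength `s*` satisfies
`(q + 1) (q ^ 2 + q + 2) ≤ 3 (s* - 1) ^ 2`, and for every real constant `c` there is a finite projective plane
with `c q < s*`. -/
theorem result :
    (∀ (P L : Type) [Fintype P] [Fintype L] [Membership P L] [ProjectivePlane P L],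
      ((ProjectivePlane.order P L : ℤ) + 1) *
        ((ProjectivePlane.order P L : ℤ) ^ 2 + ProjectivePlane.order P L + 2) ≤
          3 * ((dualStrength P L : ℤ) - 1) ^ 2) ∧
    ∀ c : ℝ, ∃ (P L : Type) (_ : Fintype P) (_ : Fintype L) (_ : Membership P L)
      (_ : ProjectivePlane P L),
        c * (ProjectivePlane.order P L : ℝ) < (dualStrength P L : ℝ) :=
  ⟨fun _ _ _ _ _ _ => dualStrength_lower_bound, exists_plane⟩

end Pool.Agent.Results.MP_aa9284_co.NotLinear
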